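import Pool.Agent.U145.HK.Test

/-!
# Passage to the limit
-/

set_option autoImplicit false

open MeasureTheory Filter Topology Set Metric
open scoped ENNReal NNReal

namespace Pool.Agent.U145.HK

open Pool.Agent.N288.MM

/-- continuous convergence -/
def CConv (g : ℕ → ℝ → ℝ) (g0 : ℝ → ℝ) : Prop :=
  ∀ (z : ℕ → ℝ) (z0 : ℝ), Tendsto z atTop (𝓝 z0) → Tendsto (fun n => g n (z n)) atTop (𝓝 (g0 z0))

lemma extend {m : ℕ → ℕ} {z : ℕ → ℝ} {y : ℝ}
    (h : Tendsto (fun k => z (m k)) atTop (𝓝 y)) :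
    ∃ Z : ℕ → ℝ, Tendsto Z atTop (𝓝 y) ∧ ∀ k, Z (m k) = z (m k) := by
  classical
  refine ⟨fun N => if N ∈ range m then z N else y, ?_, fun k => if_pos (mem_range_self k)⟩
  intro U hU
  have h1 : ∀ᶠ k in atTop, z (m k) ∈ U := h hU
  rw [← Nat.cofinite_eq_atTop, eventually_cofinite] at h1
  have h2 := h1.image m
  have h3 : ∀ᶠ N in cofinite, N ∉ m '' {k | z (m k) ∉ U} := by
    rw [eventually_cofinite]
    exact h2.subset fun x hx => not_not.1 hx
  rw [Nat.cofinite_eq_atTop] at h3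
  show ∀ᶠ N in atTop, (if N ∈ range m then z N else y) ∈ U
  filter_upwards [h3] with N hN
  by_cases hr : N ∈ range m
  · rw [if_pos hr]
    obtain ⟨k, rfl⟩ := hr
    by_contra hcon
    exact hN ⟨k, hcon, rfl⟩
  · rw [if_neg hr]
    exact mem_of_mem_nhds hU

lemma CConv.unif {g : ℕ → ℝ → ℝ} {g0 : ℝ → ℝ} (h : CConv g g0) (hc : ∀ n, Continuous (g n))
    (hc0 : Continuous g0) : ∃ δ : ℕ → ℝ, Tendsto δ atTop (𝓝 0) ∧
      ∀ n, ∀ x ∈ Icc (-1 : ℝ) 1, |g n x - g0 x| ≤ δ n := by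
  have hmax : ∀ n, ∃ z ∈ Icc (-1 : ℝ) 1, ∀ x ∈ Icc (-1 : ℝ) 1, |g n x - g0 x| ≤ |g n z - g0 z| := by
    intro n
    obtain ⟨z, hz, hz2⟩ := isCompact_Icc.exists_isMaxOn (α := ℝ) (β := ℝ)
      (⟨0, by norm_num, by norm_num⟩ : (Icc (-1 : ℝ) 1).Nonempty)
      (f := fun x => |g n x - g0 x|) (((hc n).sub hc0).abs.continuousOn)
    exact ⟨z, hz, fun x hx => hz2 hx⟩
  choose z hz hz2 using hmax
  refine ⟨fun n => |g n (z n) - g0 (z n)|, ?_, hz2⟩
  refine tendsto_of_subseq_tendsto fun ns hns => ?_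
  obtain ⟨y, -, ms, hms, hy⟩ := isCompact_Icc.tendsto_subseq fun n => hz (ns n)
  refine ⟨ms, ?_⟩
  obtain ⟨Z, hZ, hZ2⟩ := extend (m := fun k => ns (ms k)) (z := z) hy
  have h1 := h Z y hZ
  have hm : Tendsto (fun k => ns (ms k)) atTop atTop := hns.comp hms.tendsto_atTop
  have h2 := h1.comp hm
  have h3 : Tendsto (fun k => g0 (z (ns (ms k)))) atTop (𝓝 (g0 y)) :=
    (hc0.tendsto y).comp hy
  have h4 := (h2.sub h3).abs
  rw [sub_self, abs_zero] at h4
  refine h4.congr fun k => ?_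
  simp only [Function.comp]
  rw [hZ2 k]

lemma lf {w : ℝ → ℝ} (hw : Weight w) : IsLocallyFiniteMeasure (mu w) := by
  refine ⟨fun x => ⟨ball x 1, ball_mem_nhds x one_pos, ?_⟩⟩
  exact (line w hw).ball_fin x 1

lemma int_cc_mu {w : ℝ → ℝ} (hw : Weight w) {g : ℝ → ℝ} (hc : Continuous g)
    (h : ∀ x, x ∉ Icc (-1 : ℝ) 1 → g x = 0) : Integrable g (mu w) := by
  have := lf hw
  exact hc.integrable_of_hasCompactSupport (hcs h)

/-- integrals along continuous convergence -/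
lemma conv_int {g : ℕ → ℝ → ℝ} {g0 : ℝ → ℝ} (h : CConv g g0) (hc : ∀ n, Continuous (g n))
    (hc0 : Continuous g0) (s : ∀ n x, x ∉ Icc (-1 : ℝ) 1 → g n x = 0)
    (s0 : ∀ x, x ∉ Icc (-1 : ℝ) 1 → g0 x = 0) :
    Tendsto (fun N => ∫ x, g N x ∂(mu (wN N))) atTop (𝓝 (∫ x, g0 x ∂(mu wI))) := by
  obtain ⟨δ, hδ, hb⟩ := h.unif hc hc0
  have hδ0 : ∀ n, 0 ≤ δ n := fun n => (abs_nonneg _).trans (hb n 0 ⟨by norm_num, by norm_num⟩)
  have h1 := weak_int (int_cc hc0 s0)
  have h3 : Tendsto (fun N => ∫ x, (g N x - g0 x) ∂(mu (wN N))) atTop (𝓝 0) := by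
    have hz : Tendsto (fun N : ℕ => δ N * 4) atTop (𝓝 0) := by
      simpa using hδ.mul_const 4
    refine squeeze_zero_norm (fun N => ?_) hz
    calc ‖∫ x, (g N x - g0 x) ∂(mu (wN N))‖
        ≤ ∫ x, ‖g N x - g0 x‖ ∂(mu (wN N)) := norm_integral_le_integral_norm _
      _ ≤ ∫ x, (Icc (-1 : ℝ) 1).indicator (fun _ => δ N) x ∂(mu (wN N)) := by
          refine integral_mono_of_nonneg (Eventually.of_forall fun x => norm_nonneg _) ?_
            (Eventually.of_forall fun x => ?_)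
          · refine (integrable_indicator_iff measurableSet_Icc).2 ?_
            refine integrableOn_const ?_
            exact ((mu_Icc (wN_weight N)).trans_lt (by norm_num)).ne
          · show ‖g N x - g0 x‖ ≤ _
            rw [Real.norm_eq_abs]
            by_cases hx : x ∈ Icc (-1 : ℝ) 1
            · rw [indicator_of_mem hx]
              exact hb N x hx
            · rw [indicator_of_notMem hx, s N x hx, s0 x hx]
              simp
      _ = (mu (wN N) (Icc (-1) 1)).toReal * δ N := by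
          rw [integral_indicator measurableSet_Icc, setIntegral_const, smul_eq_mul]
          rfl
      _ ≤ δ N * 4 := by
          rw [mul_comm]
          refine mul_le_mul_of_nonneg_left ?_ (hδ0 N)
          exact ENNReal.toReal_le_of_le_ofReal (by norm_num)
            ((mu_Icc (wN_weight N)).trans (by simp))
  have h4 := h1.add h3
  rw [add_zero] at h4
  refine h4.congr fun N => ?_
  have hw := wN_weight N
  have i2 : Integrable (fun x => g N x - g0 x) (mu (wN N)) :=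
    int_cc_mu hw ((hc N).sub hc0) fun x hx => by simp [s N x hx, s0 x hx]
  rw [← integral_add (int_cc_mu hw hc0 s0) i2]
  refine integral_congr_ae (Eventually.of_forall fun x => ?_)
  show g0 x + (g N x - g0 x) = g N x
  ring

lemma cont_heat {w : ℝ → ℝ} (hw : Weight w) {K : ℝ → ℝ → ℝ}
    (hK : Continuous fun z : ℝ × ℝ => K z.1 z.2) {f : ℝ → ℝ} (hf : Continuous f)
    (s : ∀ x, x ∉ Icc (-1 : ℝ) 1 → f x = 0) : Continuous fun x => ∫ y, K x y * f y ∂(mu w) := by
  have := lf hw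
  have h1 := continuous_parametric_integral_of_continuous (μ := mu w)
    (f := fun x y => K x y * f y) (s := Icc (-1 : ℝ) 1)
    (by
      show Continuous fun z : ℝ × ℝ => K z.1 z.2 * f z.2
      exact hK.mul (hf.comp continuous_snd)) isCompact_Icc
  refine h1.congr fun x => ?_
  refine setIntegral_eq_integral_of_forall_compl_eq_zero fun y hy => ?_
  rw [s y hy, mul_zero]

/-- convergence of the quadratic forms of the kernels -/
lemma conv_form {K : ℕ → ℝ → ℝ → ℝ} {K0 : ℝ → ℝ → ℝ}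
    (hK : ∀ n, Continuous fun z : ℝ × ℝ => K n z.1 z.2)
    (hK0 : Continuous fun z : ℝ × ℝ => K0 z.1 z.2)
    (hconv : ∀ (x y : ℕ → ℝ) (x0 y0 : ℝ), Tendsto x atTop (𝓝 x0) → Tendsto y atTop (𝓝 y0) →
      Tendsto (fun n => K n (x n) (y n)) atTop (𝓝 (K0 x0 y0)))
    {f : ℕ → ℝ → ℝ} {f0 : ℝ → ℝ} (h : CConv f f0) (hc : ∀ n, Continuous (f n))
    (hc0 : Continuous f0) (s : ∀ n x, x ∉ Icc (-1 : ℝ) 1 → f n x = 0)
    (s0 : ∀ x, x ∉ Icc (-1 : ℝ) 1 → f0 x = 0) :
    Tendsto (fun N => ∫ x, (∫ y, K N x y * f N y ∂(mu (wN N))) * f N x ∂(mu (wN N))) atTop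
      (𝓝 (∫ x, (∫ y, K0 x y * f0 y ∂(mu wI)) * f0 x ∂(mu wI))) := by
  refine conv_int (g := fun N x => (∫ y, K N x y * f N y ∂(mu (wN N))) * f N x) ?_ ?_ ?_ ?_ ?_
  · intro z z0 hz
    refine Tendsto.mul ?_ (h z z0 hz)
    refine conv_int (g := fun N y => K N (z N) y * f N y) (g0 := fun y => K0 z0 y * f0 y)
      ?_ ?_ ?_ ?_ ?_
    · intro y y0 hy
      exact (hconv z y z0 y0 hz hy).mul (h y y0 hy)
    · intro n
      exact ((hK n).comp (by fun_prop : Continuous fun y : ℝ => (z n, y))).mul (hc n)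
    · exact (hK0.comp (by fun_prop : Continuous fun y : ℝ => (z0, y))).mul hc0
    · intro n x hx
      simp [s n x hx]
    · intro x hx
      simp [s0 x hx]
  · intro n
    exact (cont_heat (wN_weight n) (hK n) (hc n) (s n)).mul (hc n)
  · exact (cont_heat wI_weight hK0 hc0 s0).mul hc0
  · intro n x hx
    simp [s n x hx]
  · intro x hx
    simp [s0 x hx]

section corr

variable {φ φ1 φ2 : ℝ → ℝ}

/-- `1 / (3 fr N)` -/
noncomputable def kp (N : ℕ) : ℝ := 1 / (3 * fr N)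

lemma kp_pos (N : ℕ) : 0 < kp N := by
  unfold kp
  have := fr_pos N
  positivity

lemma kp_le (N : ℕ) : kp N ≤ 1 / ((N : ℝ) + 1) := by
  unfold kp fr
  have : (3 : ℝ) < Real.pi := Real.pi_gt_three
  have h0 : (0 : ℝ) ≤ N := N.cast_nonneg
  apply one_div_le_one_div_of_le (by positivity)
  nlinarith

lemma kp_tendsto : Tendsto kp atTop (𝓝 0) :=
  squeeze_zero (fun N => (kp_pos N).le) kp_le tendsto_one_div_add_atTop_nhds_zero_nat

/-- the corrected test functions -/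
noncomputable def cf (φ φ1 : ℝ → ℝ) (N : ℕ) (x : ℝ) : ℝ :=
  φ x - φ1 x * (kp N * Real.sin (fr N * x))

/-- their derivatives -/
noncomputable def cf' (φ1 φ2 : ℝ → ℝ) (N : ℕ) (x : ℝ) : ℝ :=
  φ1 x * (1 - Real.cos (fr N * x) / 3) - kp N * (φ2 x * Real.sin (fr N * x))

lemma cf_C1 (h : C1 φ φ1) (h' : C1 φ1 φ2) (N : ℕ) : C1 (cf φ φ1 N) (cf' φ1 φ2 N) where
  d x := by
    have h0 : HasDerivAt (fun t : ℝ => fr N * t) (fr N) x := by
      simpa using (hasDerivAt_id x).const_mul (fr N)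
    have h1 := (h.d x).sub ((h'.d x).mul (h0.sin.const_mul (kp N)))
    refine h1.congr_deriv ?_
    unfold cf' kp
    have := (fr_pos N).ne'
    field_simp
    ring
  c := by
    unfold cf'
    have := h'.cont
    have := h'.c
    fun_prop
  s0 x hx := by simp [cf, h.s0 x hx, h.s1 x hx]
  s1 x hx := by simp [cf', h.s1 x hx, h'.s1 x hx]

lemma cf_conv (h : C1 φ φ1) : CConv (cf φ φ1) φ := by
  obtain ⟨C, hC⟩ := (hcs h.s1).exists_bound_of_continuous h.c
  have hC0 : 0 ≤ C := (norm_nonneg _).trans (hC 0)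
  intro z z0 hz
  have h1 : Tendsto (fun n => φ (z n)) atTop (𝓝 (φ z0)) := (h.cont.tendsto z0).comp hz
  have h2 : Tendsto (fun n => φ1 (z n) * (kp n * Real.sin (fr n * z n))) atTop (𝓝 0) := by
    have h3 : Tendsto (fun n => C * kp n) atTop (𝓝 0) := by simpa using kp_tendsto.const_mul C
    refine squeeze_zero_norm (fun n => ?_) h3
    rw [norm_mul, norm_mul, Real.norm_eq_abs (kp n), abs_of_pos (kp_pos n)]
    have h4 : ‖Real.sin (fr n * z n)‖ ≤ 1 := Real.abs_sin_le_one _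
    have h5 := hC (z n)
    have h6 := kp_pos n
    calc ‖φ1 (z n)‖ * (kp n * ‖Real.sin (fr n * z n)‖) ≤ C * (kp n * 1) := by
          gcongr
      _ = C * kp n := by ring
  have := h1.sub h2
  rw [sub_zero] at this
  exact this

lemma fr2 (N : ℕ) (x : ℝ) : Real.cos (2 * (fr N * x)) = Real.cos (fr (2 * N + 1) * x) := by
  congr 1
  unfold fr
  push_cast
  ring

lemma fr3 (N : ℕ) (x : ℝ) : Real.cos (3 * (fr N * x)) = Real.cos (fr (3 * N + 2) * x) := by
  congr 1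
  unfold fr
  push_cast
  ring

lemma trig_id (θ : ℝ) : (3 / 2 + Real.cos θ / 2) * (1 - Real.cos θ / 3) ^ 2 =
    17 / 12 - 11 / 24 * Real.cos θ - 1 / 12 * Real.cos (2 * θ) + 1 / 72 * Real.cos (3 * θ) := by
  rw [Real.cos_two_mul, Real.cos_three_mul]
  ring

lemma cosi {g : ℝ → ℝ} (hg : Integrable g) (N : ℕ) :
    Integrable fun x => Real.cos (fr N * x) * g x := by
  refine hg.norm.mono' ((by fun_prop : Continuous fun x : ℝ =>
    Real.cos (fr N * x)).aestronglyMeasurable.mul hg.1) (Eventually.of_forall fun x => ?_)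
  rw [norm_mul]
  calc ‖Real.cos (fr N * x)‖ * ‖g x‖ ≤ 1 * ‖g x‖ := by
        gcongr
        exact Real.abs_cos_le_one _
    _ = ‖g x‖ := one_mul _

/-- the main part of the energies -/
lemma main_part (h : C1 φ φ1) : Tendsto (fun N => ∫ x, wN N x *
    (φ1 x * (1 - Real.cos (fr N * x) / 3)) ^ 2) atTop (𝓝 (17 / 12 * ∫ x, φ1 x ^ 2)) := by
  have hi : Integrable fun x => φ1 x ^ 2 := int_cc (h.c.pow 2) fun x hx => by simp [h.s1 x hx]
  have r1 := rl hi
  have r2 := r1.comp (tendsto_atTop_mono (fun n : ℕ => (by omega : n ≤ 2 * n + 1)) tendsto_id)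
  have r3 := r1.comp (tendsto_atTop_mono (fun n : ℕ => (by omega : n ≤ 3 * n + 2)) tendsto_id)
  have r := (((tendsto_const_nhds (x := 17 / 12 * ∫ x, φ1 x ^ 2) (f := (atTop : Filter ℕ))).sub
    (r1.const_mul (11 / 24))).sub (r2.const_mul (1 / 12))).add (r3.const_mul (1 / 72))
  simp only [mul_zero, sub_zero, add_zero] at r
  refine r.congr fun N => ?_
  have e : ∀ x, wN N x * (φ1 x * (1 - Real.cos (fr N * x) / 3)) ^ 2 =
      17 / 12 * φ1 x ^ 2 - 11 / 24 * (Real.cos (fr N * x) * φ1 x ^ 2) -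
      1 / 12 * (Real.cos (fr (2 * N + 1) * x) * φ1 x ^ 2) +
      1 / 72 * (Real.cos (fr (3 * N + 2) * x) * φ1 x ^ 2) := by
    intro x
    rw [← fr2, ← fr3, mul_pow]
    have := trig_id (fr N * x)
    unfold wN
    linear_combination φ1 x ^ 2 * this
  simp only [e]
  have i1 := (hi.const_mul (17 / 12)).sub ((cosi hi N).const_mul (11 / 24))
  have i2 := i1.sub ((cosi hi (2 * N + 1)).const_mul (1 / 12))
  have j0 : Integrable fun x => 17 / 12 * φ1 x ^ 2 := hi.const_mul _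
  have j1 : Integrable fun x => 11 / 24 * (Real.cos (fr N * x) * φ1 x ^ 2) :=
    (cosi hi N).const_mul _
  have j2 : Integrable fun x => 1 / 12 * (Real.cos (fr (2 * N + 1) * x) * φ1 x ^ 2) :=
    (cosi hi (2 * N + 1)).const_mul _
  have j3 : Integrable fun x => 1 / 72 * (Real.cos (fr (3 * N + 2) * x) * φ1 x ^ 2) :=
    (cosi hi (3 * N + 2)).const_mul _
  have j01 : Integrable fun x => 17 / 12 * φ1 x ^ 2 -
    11 / 24 * (Real.cos (fr N * x) * φ1 x ^ 2) := j0.sub j1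
  have j012 : Integrable fun x => 17 / 12 * φ1 x ^ 2 -
    11 / 24 * (Real.cos (fr N * x) * φ1 x ^ 2) -
    1 / 12 * (Real.cos (fr (2 * N + 1) * x) * φ1 x ^ 2) := j01.sub j2
  rw [integral_add j012 j3, integral_sub j01 j2, integral_sub j0 j1, integral_const_mul,
    integral_const_mul, integral_const_mul, integral_const_mul]
  rfl

/-- the limit of the energies -/
lemma energy_lim (h : C1 φ φ1) (h' : C1 φ1 φ2) :
    Tendsto (fun N => ∫ x, cf' φ1 φ2 N x ^ 2 ∂(mu (wN N))) atTop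
      (𝓝 (17 / 12 * ∫ x, φ1 x ^ 2)) := by
  set G : ℝ → ℝ := fun x => 16 * (|φ1 x| * |φ2 x|) + 2 * φ2 x ^ 2 with hG
  have hGi : Integrable G := by
    refine int_cc ?_ fun x hx => ?_
    · have := h'.cont
      have := h'.c
      fun_prop
    · simp [hG, h'.s0 x hx, h'.s1 x hx]
  have hz : Tendsto (fun N => kp N * ∫ x, G x) atTop (𝓝 0) := by
    simpa using kp_tendsto.mul_const (∫ x, G x)
  have h0 := main_part h
  have hcA : ∀ N, Continuous fun x => wN N x * (φ1 x * (1 - Real.cos (fr N * x) / 3)) ^ 2 := by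
    intro N
    have := wN_cont N
    have := h.c
    fun_prop
  have hcB : ∀ N, Continuous fun x => wN N x * cf' φ1 φ2 N x ^ 2 := fun N =>
    (wN_cont N).mul ((cf_C1 h h' N).c.pow 2)
  have iA : ∀ N, Integrable fun x => wN N x * (φ1 x * (1 - Real.cos (fr N * x) / 3)) ^ 2 :=
    fun N => int_cc (hcA N) fun x hx => by simp [h.s1 x hx]
  have iB : ∀ N, Integrable fun x => wN N x * cf' φ1 φ2 N x ^ 2 :=
    fun N => int_cc (hcB N) fun x hx => by simp [(cf_C1 h h' N).s1 x hx]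
  have h1 : Tendsto (fun N => (∫ x, wN N x * cf' φ1 φ2 N x ^ 2) -
      ∫ x, wN N x * (φ1 x * (1 - Real.cos (fr N * x) / 3)) ^ 2) atTop (𝓝 0) := by
    refine squeeze_zero_norm (fun N => ?_) hz
    rw [← integral_sub (iB N) (iA N), ← integral_const_mul]
    refine norm_integral_le_of_norm_le (hGi.const_mul _) (Eventually.of_forall fun x => ?_)
    have hk := kp_pos N
    have hk1 : kp N ≤ 1 := (kp_le N).trans (by
      rw [div_le_one (by positivity)]
      have : (0 : ℝ) ≤ N := N.cast_nonneg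
      linarith)
    have hw1 := (wN_weight N).one_le x
    have hw2 := (wN_weight N).le_two x
    have hs := Real.abs_sin_le_one (fr N * x)
    have hcos := abs_le.1 (Real.abs_cos_le_one (fr N * x))
    have e : wN N x * cf' φ1 φ2 N x ^ 2 -
        wN N x * (φ1 x * (1 - Real.cos (fr N * x) / 3)) ^ 2 =
        kp N * (-(2 * wN N x * (φ1 x * (1 - Real.cos (fr N * x) / 3)) *
          (φ2 x * Real.sin (fr N * x))) +
          kp N * (wN N x * (φ2 x ^ 2 * Real.sin (fr N * x) ^ 2))) := by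
      unfold cf'
      ring
    rw [e, norm_mul, Real.norm_eq_abs (kp N), abs_of_pos hk]
    refine mul_le_mul_of_nonneg_left ?_ hk.le
    refine (norm_add_le _ _).trans ?_
    rw [hG]
    refine add_le_add ?_ ?_
    · rw [norm_neg, Real.norm_eq_abs, abs_mul, abs_mul, abs_mul, abs_mul, abs_mul, abs_two,
        abs_of_pos (by linarith : 0 < wN N x)]
      have h5 : |1 - Real.cos (fr N * x) / 3| ≤ 2 := by
        rw [abs_le]
        constructor <;> linarith [hcos.1, hcos.2]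
      calc 2 * wN N x * (|φ1 x| * |1 - Real.cos (fr N * x) / 3|) *
            (|φ2 x| * |Real.sin (fr N * x)|)
          ≤ 2 * 2 * (|φ1 x| * 2) * (|φ2 x| * 1) := by gcongr
        _ ≤ 16 * (|φ1 x| * |φ2 x|) := by
            nlinarith [mul_nonneg (abs_nonneg (φ1 x)) (abs_nonneg (φ2 x))]
    · rw [norm_mul, norm_mul, norm_mul, Real.norm_eq_abs (kp N), abs_of_pos hk,
        Real.norm_eq_abs (wN N x), abs_of_pos (by linarith : 0 < wN N x), norm_pow, norm_pow,
        Real.norm_eq_abs, Real.norm_eq_abs, sq_abs (φ2 x)]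
      calc kp N * (wN N x * (φ2 x ^ 2 * |Real.sin (fr N * x)| ^ 2))
          ≤ 1 * (2 * (φ2 x ^ 2 * 1 ^ 2)) := by gcongr
        _ = 2 * φ2 x ^ 2 := by ring
  have h2 := h1.add h0
  rw [zero_add] at h2
  refine h2.congr fun N => ?_
  rw [int_mu (wN_weight N)]
  ring

lemma mass_lim (h : C1 φ φ1) (h' : C1 φ1 φ2) :
    Tendsto (fun N => ∫ x, cf φ φ1 N x ^ 2 ∂(mu (wN N))) atTop (𝓝 (∫ x, φ x ^ 2 ∂(mu wI))) := by
  refine conv_int (g := fun N x => cf φ φ1 N x ^ 2) (g0 := fun x => φ x ^ 2) ?_ ?_ ?_ ?_ ?_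
  · intro z z0 hz
    exact (cf_conv h z z0 hz).pow 2
  · exact fun N => (cf_C1 h h' N).cont.pow 2
  · exact h.cont.pow 2
  · intro N x hx
    simp [(cf_C1 h h' N).s0 x hx]
  · intro x hx
    simp [h.s0 x hx]

end corr

/-- the heat kernels of the oscillating lines do not converge to the heat kernel of the limit -/
theorem no_conv {p : ℕ → ℝ → ℝ → ℝ → ℝ} {q : ℝ → ℝ → ℝ → ℝ} {u : ℕ → ℝ → (ℝ → ℝ) → ℝ → ℝ}
    {v : ℝ → (ℝ → ℝ) → ℝ → ℝ}
    (hp : ∀ N, HKW (wN N) (p N) (u N)) (hq : HKW wI q v)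
    (hconv : ∀ r : ℝ, 0 < r → ∀ (x y : ℕ → ℝ) (x0 y0 : ℝ), Tendsto x atTop (𝓝 x0) →
      Tendsto y atTop (𝓝 y0) → Tendsto (fun n => p n r (x n) (y n)) atTop (𝓝 (q r x0 y0))) :
    False := by
  obtain ⟨φ, φ1, φ2, h, h', hpos⟩ := exists_tst
  have hε : 0 < (∫ x, φ1 x ^ 2) / 24 := by positivity
  obtain ⟨s, hs, hup⟩ := upperT hq h h' hε
  have e1 : ∫ x, φ1 x ^ 2 ∂(mu wI) = 3 / 2 * ∫ x, φ1 x ^ 2 := by
    rw [int_mu wI_weight]
    simp only [wI]
    rw [integral_const_mul]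
  have hlow : ∀ N, (∫ x, cf φ φ1 N x ^ 2 ∂(mu (wN N))) - s * ∫ x, cf' φ1 φ2 N x ^ 2 ∂(mu (wN N)) ≤
      ∫ x, u N s (cf φ φ1 N) x * cf φ φ1 N x ∂(mu (wN N)) := fun N =>
    lower (wN_weight N) (hp N) ((cf_C1 h h' N).der (wN_weight N)) hs
  have hlim1 := (mass_lim h h').sub ((energy_lim h h').const_mul s)
  have hlim2 := conv_form (K := fun N => p N s) (K0 := q s) (fun N => (hp N).cont s hs)
    (hq.cont s hs) (hconv s hs) (cf_conv h) (fun N => (cf_C1 h h' N).cont) h.cont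
    (fun N => (cf_C1 h h' N).s0) h.s0
  have e2 : (fun N => ∫ x, (∫ y, p N s x y * cf φ φ1 N y ∂(mu (wN N))) * cf φ φ1 N x
      ∂(mu (wN N))) = fun N => ∫ x, u N s (cf φ φ1 N) x * cf φ φ1 N x ∂(mu (wN N)) := by
    funext N
    simp only [(hp N).def_u]
  have e3 : (∫ x, (∫ y, q s x y * φ y ∂(mu wI)) * φ x ∂(mu wI)) =
      ∫ x, v s φ x * φ x ∂(mu wI) := by
    simp only [hq.def_u]
  rw [e2, e3] at hlim2
  have hfin := le_of_tendsto_of_tendsto' hlim1 hlim2 hlow
  rw [e1] at hup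
  nlinarith

end Pool.Agent.U145.HK
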