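import Pool.Agent.N288.MM.Defs

/-!
# Heat kernels of metric measure spaces

Definitions for Q2 of the problem `MP_a99579_gt`; metric measure spaces, Cheeger energies and
pointed measured Gromov-Hausdorff convergence are those of the starting file `N288.MM.Defs`.
-/

set_option autoImplicit false

open MeasureTheory Filter Topology Set Metric
open scoped ENNReal NNReal

namespace Pool.Agent.U145.HK

open Pool.Agent.N288.MM

/-- The integral operator `P_t f (x) = ∫ p(t, x, y) f(y) dm(y)`. -/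
noncomputable def heat (S : Space) (p : ℝ → S.X → S.X → ℝ) (t : ℝ) (f : S.X → ℝ) (x : S.X) : ℝ :=
  ∫ y, p t x y * f y ∂S.m

/-- `p` is the heat kernel of the (infinitesimally Hilbertian) space `S`: it is continuous in the space
variables, and the operators `P_t f (x) = ∫ p(t, x, y) f(y) dm(y)` form the heat flow of `S`, i.e. the
symmetric semigroup on `L²(m)` with `P_t f → f` as `t → 0`, whose orbits have finite Cheeger energy
and satisfy the heat equation `d/dt ∫ P_t f g dm = - ∫ ⟨∇ P_t f, ∇ g⟩ dm` for all `g` of finite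
Cheeger energy (`pairing` is the polarisation of `2 Ch`). -/
structure IsHeatKernel (S : Space) (p : ℝ → S.X → S.X → ℝ) : Prop where
  cont : ∀ t, 0 < t → Continuous fun z : S.X × S.X => p t z.1 z.2
  memLp : ∀ t, 0 < t → ∀ f : S.X → ℝ, MemLp f 2 S.m → MemLp (heat S p t f) 2 S.m
  fin : ∀ t, 0 < t → ∀ f : S.X → ℝ, MemLp f 2 S.m → Ch S (heat S p t f) < ∞
  symm : ∀ t, 0 < t → ∀ f g : S.X → ℝ, MemLp f 2 S.m → MemLp g 2 S.m →
    ∫ x, heat S p t f x * g x ∂S.m = ∫ x, f x * heat S p t g x ∂S.m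
  semi : ∀ s t, 0 < s → 0 < t → ∀ f : S.X → ℝ, MemLp f 2 S.m →
    ∀ᵐ x ∂S.m, heat S p (s + t) f x = heat S p s (heat S p t f) x
  init : ∀ f : S.X → ℝ, MemLp f 2 S.m →
    Tendsto (fun t => eLpNorm (fun x => heat S p t f x - f x) 2 S.m) (𝓝[>] 0) (𝓝 0)
  flow : ∀ f g : S.X → ℝ, MemLp f 2 S.m → MemLp g 2 S.m → Ch S g < ∞ → ∀ t, 0 < t →
    HasDerivAt (fun s => ∫ x, heat S p s f x * g x ∂S.m) (-(pairing S (heat S p t f) g)) t

variable {S : ℕ → Space} {T : Space} {s : ∀ i, (S i).X} {t : T.X}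

/-- Convergence of heat kernels: `p_i(r, x_i, y_i) → q(r, x, y)` for every `r > 0` whenever
`x_i → x` and `y_i → y` in `Z`. -/
def HeatConv (P : PMGH S T s t) (p : ∀ i, ℝ → (S i).X → (S i).X → ℝ) (q : ℝ → T.X → T.X → ℝ) :
    Prop :=
  ∀ r : ℝ, 0 < r → ∀ (x y : ∀ i, (S i).X) (x' y' : T.X),
    Tendsto (fun i => P.ι i (x i)) atTop (𝓝 (P.κ x')) →
    Tendsto (fun i => P.ι i (y i)) atTop (𝓝 (P.κ y')) →
    Tendsto (fun i => p i r (x i) (y i)) atTop (𝓝 (q r x' y'))

end Pool.Agent.U145.HK
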