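import Mathlib

/-!
# An inequality for midpoint convex functions
-/

set_option autoImplicit false

open Filter Topology Set

namespace Pool.Agent.U145.HK

/-- increments of a midpoint convex function -/
lemma incr {a : ℝ → ℝ} (hc : ∀ h z : ℝ, 0 < h → h < z → 2 * a z ≤ a (z - h) + a (z + h))
    {x y : ℝ} (hx : 0 < x) (hxy : x < y) (n : ℕ) :
    a (x + (y - x) / (n + 1)) - a x ≤ a y - a (y - (y - x) / (n + 1)) := by
  set h : ℝ := (y - x) / (n + 1) with hh
  have hn : (0 : ℝ) < n + 1 := by positivity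
  have hpos : 0 < h := div_pos (sub_pos.2 hxy) hn
  have hmono : Monotone fun k : ℕ => a (x + (k + 1) * h) - a (x + k * h) := by
    refine monotone_nat_of_le_succ fun k => ?_
    have h1 := hc h (x + (k + 1) * h) hpos (by nlinarith [(Nat.cast_nonneg k : (0:ℝ) ≤ k)])
    have e1 : x + ((k : ℝ) + 1) * h - h = x + k * h := by ring
    have e2 : x + ((k : ℝ) + 1) * h + h = x + ((k : ℝ) + 1 + 1) * h := by ring
    rw [e1, e2] at h1
    push_cast
    linarith
  have h2 := hmono (Nat.zero_le n)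
  simp only [Nat.cast_zero, zero_mul, add_zero, zero_add, one_mul] at h2
  have e3 : x + ((n : ℝ) + 1) * h = y := by
    rw [hh]; field_simp; ring
  have e4 : x + (n : ℝ) * h = y - h := by linarith [e3]
  rw [e3, e4] at h2
  exact h2

/-- the derivative of a midpoint convex function is monotone -/
lemma deriv_mono {a : ℝ → ℝ} (hc : ∀ h z : ℝ, 0 < h → h < z → 2 * a z ≤ a (z - h) + a (z + h))
    {x y p q : ℝ} (hx : 0 < x) (hxy : x < y) (hp : HasDerivAt a p x) (hq : HasDerivAt a q y) :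
    p ≤ q := by
  have hz : Tendsto (fun n : ℕ => (y - x) / ((n : ℝ) + 1)) atTop (𝓝 0) := by
    have := (tendsto_one_div_add_atTop_nhds_zero_nat (𝕜 := ℝ)).const_mul (y - x)
    rw [mul_zero] at this
    refine this.congr fun n => ?_
    ring
  have hzp : ∀ n : ℕ, 0 < (y - x) / ((n : ℝ) + 1) := fun n =>
    div_pos (sub_pos.2 hxy) (by positivity)
  have h1 : Tendsto (fun n : ℕ => (a (x + (y - x) / (n + 1)) - a x) / ((y - x) / (n + 1))) atTop
      (𝓝 p) := by
    have h := hasDerivAt_iff_tendsto_slope_zero.1 hp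
    have hz' : Tendsto (fun n : ℕ => (y - x) / ((n : ℝ) + 1)) atTop (𝓝[≠] 0) :=
      tendsto_nhdsWithin_iff.2 ⟨hz, Eventually.of_forall fun n => (hzp n).ne'⟩
    refine (h.comp hz').congr fun n => ?_
    simp only [Function.comp, smul_eq_mul]
    ring
  have h2 : Tendsto (fun n : ℕ => (a y - a (y - (y - x) / (n + 1))) / ((y - x) / (n + 1))) atTop
      (𝓝 q) := by
    have h := hasDerivAt_iff_tendsto_slope_zero.1 hq
    have hz' : Tendsto (fun n : ℕ => -((y - x) / ((n : ℝ) + 1))) atTop (𝓝[≠] 0) := by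
      refine tendsto_nhdsWithin_iff.2 ⟨by simpa using hz.neg, Eventually.of_forall fun n => ?_⟩
      exact neg_ne_zero.2 (hzp n).ne'
    refine (h.comp hz').congr fun n => ?_
    simp only [Function.comp, smul_eq_mul]
    rw [inv_neg, ← sub_eq_add_neg]
    ring
  refine le_of_tendsto_of_tendsto' h1 h2 fun n => ?_
  exact div_le_div_of_nonneg_right (incr hc hx hxy n) (hzp n).le

/-- The abstract inequality. -/
theorem key {a b : ℝ → ℝ} {a0 E : ℝ} (hE : 0 ≤ E)
    (hd : ∀ t, 0 < t → HasDerivAt a (-(b t)) t)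
    (h0 : Tendsto a (𝓝[>] 0) (𝓝 a0))
    (hc : ∀ h z : ℝ, 0 < h → h < z → 2 * a z ≤ a (z - h) + a (z + h))
    (hb : ∀ t, 0 < t → b t ^ 2 ≤ b (2 * t) * E) {s : ℝ} (hs : 0 < s) : a0 - s * E ≤ a s := by
  have hbE : ∀ t, 0 < t → b t ≤ E := by
    intro t ht
    have h1 := deriv_mono hc ht (by linarith : t < 2 * t) (hd t ht) (hd (2 * t) (by linarith))
    have h2 : b (2 * t) ≤ b t := by linarith
    have h3 := hb t ht
    by_contra hcon
    push Not at hcon
    have h4 : b (2 * t) * E ≤ b t * E := mul_le_mul_of_nonneg_right h2 hE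
    have h5 : 0 < b t := lt_of_le_of_lt hE hcon
    nlinarith
  have hmv : ∀ η, 0 < η → η < s → a η - (s - η) * E ≤ a s := by
    intro η hη hηs
    have := Convex.mul_sub_le_image_sub_of_le_deriv (convex_Icc η s) (f := a) (C := -E)
      (fun x hx => (hd x (lt_of_lt_of_le hη hx.1)).continuousAt.continuousWithinAt)
      (fun x hx => by
        rw [interior_Icc] at hx
        exact (hd x (hη.trans hx.1)).differentiableAt.differentiableWithinAt)
      (fun x hx => by
        rw [interior_Icc] at hx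
        rw [(hd x (hη.trans hx.1)).deriv]
        linarith [hbE x (hη.trans hx.1)]) η ⟨le_rfl, hηs.le⟩ s ⟨hηs.le, le_rfl⟩ hηs.le
    nlinarith
  have hl : Tendsto (fun η => a η - (s - η) * E) (𝓝[>] 0) (𝓝 (a0 - (s - 0) * E)) := by
    refine h0.sub (Tendsto.mul_const _ (tendsto_const_nhds.sub ?_))
    exact tendsto_nhdsWithin_of_tendsto_nhds tendsto_id
  rw [sub_zero] at hl
  refine le_of_tendsto hl ?_
  have : Ioo (0 : ℝ) s ∈ 𝓝[>] (0 : ℝ) := Ioo_mem_nhdsGT hs
  filter_upwards [this] with η hη using hmv η hη.1 hη.2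

/-- An upper bound near zero. -/
theorem upper {a c : ℝ → ℝ} {a0 c0 ε : ℝ} (hε : 0 < ε)
    (hd : ∀ t, 0 < t → HasDerivAt a (c t) t)
    (h0 : Tendsto a (𝓝[>] 0) (𝓝 a0)) (hc : Tendsto c (𝓝[>] 0) (𝓝 c0)) :
    ∃ s, 0 < s ∧ a s ≤ a0 + s * (c0 + ε) := by
  have h1 : ∀ᶠ t in 𝓝[>] (0 : ℝ), c t ≤ c0 + ε :=
    (hc.eventually_lt_const (by linarith : c0 < c0 + ε)).mono fun t ht => ht.le
  obtain ⟨s, hs, hsub⟩ := (mem_nhdsGT_iff_exists_Ioo_subset).1 h1
  have hs' : (0 : ℝ) < s := hs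
  refine ⟨s / 2, by linarith, ?_⟩
  have hmv : ∀ η, 0 < η → η < s / 2 → a (s / 2) ≤ a η + (s / 2 - η) * (c0 + ε) := by
    intro η hη hηs
    have := Convex.image_sub_le_mul_sub_of_deriv_le (convex_Icc η (s / 2)) (f := a) (C := c0 + ε)
      (fun x hx => (hd x (lt_of_lt_of_le hη hx.1)).continuousAt.continuousWithinAt)
      (fun x hx => by
        rw [interior_Icc] at hx
        exact (hd x (hη.trans hx.1)).differentiableAt.differentiableWithinAt)
      (fun x hx => by
        rw [interior_Icc] at hx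
        rw [(hd x (hη.trans hx.1)).deriv]
        exact hsub ⟨hη.trans hx.1, by linarith [hx.2]⟩) η ⟨le_rfl, hηs.le⟩ (s / 2) ⟨hηs.le, le_rfl⟩
      hηs.le
    nlinarith
  have hl : Tendsto (fun η => a η + (s / 2 - η) * (c0 + ε)) (𝓝[>] 0)
      (𝓝 (a0 + (s / 2 - 0) * (c0 + ε))) := by
    refine h0.add (Tendsto.mul_const _ (tendsto_const_nhds.sub ?_))
    exact tendsto_nhdsWithin_of_tendsto_nhds tendsto_id
  rw [sub_zero] at hl
  refine ge_of_tendsto hl ?_
  have : Ioo (0 : ℝ) (s / 2) ∈ 𝓝[>] (0 : ℝ) := Ioo_mem_nhdsGT (by linarith)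
  filter_upwards [this] with η hη using hmv η hη.1 hη.2

end Pool.Agent.U145.HK
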