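import Pool.Agent.U145.HK.Defs
import Pool.Agent.U145.HK.Real
import Pool.Agent.N288.MM.Final

/-!
# Heat kernels of weighted lines
-/

set_option autoImplicit false

open MeasureTheory Filter Topology Set Metric
open scoped ENNReal NNReal

namespace Pool.Agent.U145.HK

open Pool.Agent.N288.MM

variable {w : ℝ → ℝ}

lemma imul {μ : Measure ℝ} {g h : ℝ → ℝ} (hg : MemLp g 2 μ) (hh : MemLp h 2 μ) :
    Integrable (fun x => g x * h x) μ := hg.integrable_mul hh

/-- Cauchy-Schwarz -/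
lemma cs {μ : Measure ℝ} {g h : ℝ → ℝ} (hg : MemLp g 2 μ) (hh : MemLp h 2 μ) :
    (∫ x, g x * h x ∂μ) ^ 2 ≤ (∫ x, g x ^ 2 ∂μ) * ∫ x, h x ^ 2 ∂μ := by
  have i1 := hg.integrable_sq
  have i2 := hh.integrable_sq
  have i3 : Integrable (fun x => g x * h x) μ := hg.integrable_mul hh
  have hq : ∀ t : ℝ, 0 ≤ (∫ x, h x ^ 2 ∂μ) * (t * t) + (2 * ∫ x, g x * h x ∂μ) * t +
      ∫ x, g x ^ 2 ∂μ := by
    intro t
    have h1 : 0 ≤ ∫ x, (g x + t * h x) ^ 2 ∂μ := integral_nonneg fun x => sq_nonneg _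
    have e : ∫ x, (g x + t * h x) ^ 2 ∂μ = (∫ x, h x ^ 2 ∂μ) * (t * t) +
        (2 * ∫ x, g x * h x ∂μ) * t + ∫ x, g x ^ 2 ∂μ := by
      have e1 : (fun x => (g x + t * h x) ^ 2) = fun x => (t * t) * h x ^ 2 +
          (2 * t) * (g x * h x) + g x ^ 2 := by funext x; ring
      have i12 : Integrable (fun x => (t * t) * h x ^ 2 + (2 * t) * (g x * h x)) μ :=
        (i2.const_mul _).add (i3.const_mul _)
      rw [e1, integral_add i12 i1,
        integral_add (i2.const_mul _) (i3.const_mul _), integral_const_mul, integral_const_mul]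
      ring
    rw [e] at h1
    exact h1
  have := discrim_le_zero hq
  unfold discrim at this
  nlinarith

lemma norm_sq {μ : Measure ℝ} {g : ℝ → ℝ} (hg : MemLp g 2 μ) :
    ∫ x, g x ^ 2 ∂μ = (eLpNorm g 2 μ).toReal ^ 2 := by
  rw [← ENNReal.toReal_pow, eLpNorm_sq, integral_eq_lintegral_of_nonneg_ae
    (Eventually.of_forall fun x => sq_nonneg _) (hg.1.pow 2)]

lemma cs' {μ : Measure ℝ} {g h : ℝ → ℝ} (hg : MemLp g 2 μ) (hh : MemLp h 2 μ) :
    |∫ x, g x * h x ∂μ| ≤ (eLpNorm g 2 μ).toReal * (eLpNorm h 2 μ).toReal := by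
  have h1 := cs hg hh
  rw [norm_sq hg, norm_sq hh, ← mul_pow] at h1
  exact abs_le_of_sq_le_sq h1 (by positivity)

/-- the heat kernel on a weighted line, with real arguments -/
structure HKW (w : ℝ → ℝ) (p : ℝ → ℝ → ℝ → ℝ) (u : ℝ → (ℝ → ℝ) → ℝ → ℝ) : Prop where
  def_u : ∀ t f x, u t f x = ∫ y, p t x y * f y ∂(mu w)
  cont : ∀ t, 0 < t → Continuous fun z : ℝ × ℝ => p t z.1 z.2
  memLp : ∀ t, 0 < t → ∀ f : ℝ → ℝ, MemLp f 2 (mu w) → MemLp (u t f) 2 (mu w)
  fin : ∀ t, 0 < t → ∀ f : ℝ → ℝ, MemLp f 2 (mu w) → Cw w (u t f) < ∞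
  symm : ∀ t, 0 < t → ∀ f g : ℝ → ℝ, MemLp f 2 (mu w) → MemLp g 2 (mu w) →
    ∫ x, u t f x * g x ∂(mu w) = ∫ x, f x * u t g x ∂(mu w)
  semi : ∀ s t, 0 < s → 0 < t → ∀ f : ℝ → ℝ, MemLp f 2 (mu w) →
    ∀ᵐ x ∂(mu w), u (s + t) f x = u s (u t f) x
  init : ∀ f : ℝ → ℝ, MemLp f 2 (mu w) →
    Tendsto (fun t => eLpNorm (fun x => u t f x - f x) 2 (mu w)) (𝓝[>] 0) (𝓝 0)
  flow : ∀ f g : ℝ → ℝ, MemLp f 2 (mu w) → MemLp g 2 (mu w) → Cw w g < ∞ → ∀ t, 0 < t →
    HasDerivAt (fun s => ∫ x, u s f x * g x ∂(mu w)) (-(pairW w (u t f) g)) t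

lemma hkw (hw : Weight w) {p : ℝ → ℝ → ℝ → ℝ} (h : IsHeatKernel (line w hw) p) :
    HKW w p (heat (line w hw) p) where
  def_u := fun _ _ _ => rfl
  cont := h.cont
  memLp := h.memLp
  fin := h.fin
  symm := h.symm
  semi := h.semi
  init := h.init
  flow := h.flow

variable {p : ℝ → ℝ → ℝ → ℝ} {u : ℝ → (ℝ → ℝ) → ℝ → ℝ}

lemma Der_fin (hw : Weight w) {f θ : ℝ → ℝ} (hf : Der w f θ) : Cw w f < ∞ := by
  rw [hf.Cw_eq hw]
  exact half_lt_top (Q_lt_top hf.2.1)

lemma tendsto_pair (H : HKW w p u) {f g : ℝ → ℝ} (hf : MemLp f 2 (mu w)) (hg : MemLp g 2 (mu w)) :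
    Tendsto (fun t => ∫ x, u t f x * g x ∂(mu w)) (𝓝[>] 0) (𝓝 (∫ x, f x * g x ∂(mu w))) := by
  have h1 := (ENNReal.tendsto_toReal ENNReal.zero_ne_top).comp (H.init f hf)
  have h2 := h1.mul_const (eLpNorm g 2 (mu w)).toReal
  rw [ENNReal.toReal_zero, zero_mul] at h2
  rw [tendsto_iff_norm_sub_tendsto_zero]
  refine squeeze_zero' (Eventually.of_forall fun _ => norm_nonneg _) ?_ h2
  filter_upwards [self_mem_nhdsWithin] with t ht
  have hu := H.memLp t ht f hf
  have e : (∫ x, u t f x * g x ∂(mu w)) - ∫ x, f x * g x ∂(mu w) =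
      ∫ x, (u t f x - f x) * g x ∂(mu w) := by
    rw [← integral_sub (imul hu hg) (imul hf hg)]
    congr 1
    funext x
    ring
  rw [e, Real.norm_eq_abs]
  exact cs' (hu.sub hf) hg

/-- lower bound for the heat flow -/
theorem lower (hw : Weight w) (H : HKW w p u) {f θ : ℝ → ℝ} (hf : Der w f θ) {s : ℝ} (hs : 0 < s) :
    (∫ x, f x ^ 2 ∂(mu w)) - s * ∫ x, θ x ^ 2 ∂(mu w) ≤ ∫ x, u s f x * f x ∂(mu w) := by
  have hfin := Der_fin hw hf
  have hm := hf.1
  have hprod : ∀ r t, 0 < r → 0 < t → ∫ x, u r f x * u t f x ∂(mu w) =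
      ∫ x, u (r + t) f x * f x ∂(mu w) := by
    intro r t hr ht
    have h1 := H.symm r hr f (u t f) hm (H.memLp t ht f hm)
    rw [h1]
    refine integral_congr_ae ?_
    filter_upwards [H.semi r t hr ht f hm] with x hx
    rw [hx, mul_comm]
  refine key (a := fun t => ∫ x, u t f x * f x ∂(mu w)) (b := fun t => pairW w (u t f) f)
    (integral_nonneg fun x => sq_nonneg _) (fun t ht => H.flow f f hm hm hfin t ht) ?_ ?_ ?_ hs
  · have := tendsto_pair H hm hm
    refine this.congr' ?_ |>.trans ?_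
    · exact EventuallyEq.rfl
    · refine le_of_eq ?_
      congr 2
      funext x
      ring
  · intro h z hh hz
    have e1 := hprod ((z - h) / 2) ((z + h) / 2) (by linarith) (by linarith)
    have e2 := hprod ((z - h) / 2) ((z - h) / 2) (by linarith) (by linarith)
    have e3 := hprod ((z + h) / 2) ((z + h) / 2) (by linarith) (by linarith)
    rw [show (z - h) / 2 + (z + h) / 2 = z by ring] at e1
    rw [show (z - h) / 2 + (z - h) / 2 = z - h by ring] at e2
    rw [show (z + h) / 2 + (z + h) / 2 = z + h by ring] at e3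
    have m1 := H.memLp ((z - h) / 2) (by linarith) f hm
    have m2 := H.memLp ((z + h) / 2) (by linarith) f hm
    show 2 * ∫ x, u z f x * f x ∂(mu w) ≤ (∫ x, u (z - h) f x * f x ∂(mu w)) +
      ∫ x, u (z + h) f x * f x ∂(mu w)
    rw [← e1, ← e2, ← e3, ← integral_const_mul, ← integral_add (imul m1 m1) (imul m2 m2)]
    refine integral_mono ((imul m1 m2).const_mul 2) ((imul m1 m1).add (imul m2 m2)) fun x => ?_
    show 2 * (u ((z - h) / 2) f x * u ((z + h) / 2) f x) ≤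
      u ((z - h) / 2) f x * u ((z - h) / 2) f x + u ((z + h) / 2) f x * u ((z + h) / 2) f x
    nlinarith [sq_nonneg (u ((z - h) / 2) f x - u ((z + h) / 2) f x)]
  · intro t ht
    have mt := H.memLp t ht f hm
    have hft := H.fin t ht f hm
    obtain ⟨v, hv, -⟩ := der_of_fin hw mt hft
    have e1 : pairW w (u t f) f = ∫ x, v x * θ x ∂(mu w) := pair_eq hw hv hf
    have e2 : pairW w (u t f) (u t f) = ∫ x, v x * v x ∂(mu w) := pair_eq hw hv hv
    have d1 := H.flow f (u t f) hm mt hft t ht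
    have d2 := H.flow f f hm hm hfin (2 * t) (by linarith)
    have d3 : HasDerivAt (fun r => ∫ x, u (r + t) f x * f x ∂(mu w))
        (-(pairW w (u (2 * t) f) f)) t := by
      rw [two_mul] at d2 ⊢
      exact d2.comp_add_const t t
    have d4 : HasDerivAt (fun r => ∫ x, u r f x * u t f x ∂(mu w))
        (-(pairW w (u (2 * t) f) f)) t := by
      refine d3.congr_of_eventuallyEq ?_
      filter_upwards [lt_mem_nhds ht] with r hr using hprod r t hr ht
    have e3 := d1.unique d4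
    have e4 : pairW w (u (2 * t) f) f = ∫ x, v x ^ 2 ∂(mu w) := by
      rw [e2] at e3
      have : ∫ x, v x * v x ∂(mu w) = ∫ x, v x ^ 2 ∂(mu w) := by
        congr 1; funext x; ring
      linarith
    show pairW w (u t f) f ^ 2 ≤ pairW w (u (2 * t) f) f * _
    rw [e1, e4]
    exact cs hv.2.1 hf.2.1

end Pool.Agent.U145.HK
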