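import Pool.Agent.U145.HK.Line

/-!
# Test functions, and the upper bound for the limit line
-/

set_option autoImplicit false

open MeasureTheory Filter Topology Set Metric
open scoped ENNReal NNReal

namespace Pool.Agent.U145.HK

open Pool.Agent.N288.MM

variable {w : ℝ → ℝ} {p : ℝ → ℝ → ℝ → ℝ} {u : ℝ → (ℝ → ℝ) → ℝ → ℝ}

/-- `f` is continuously differentiable with derivative `f'` and supported in `[-1, 1]` -/
structure C1 (f f' : ℝ → ℝ) : Prop where
  d : ∀ x, HasDerivAt f (f' x) x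
  c : Continuous f'
  s0 : ∀ x, x ∉ Icc (-1 : ℝ) 1 → f x = 0
  s1 : ∀ x, x ∉ Icc (-1 : ℝ) 1 → f' x = 0

lemma hcs {g : ℝ → ℝ} (h : ∀ x, x ∉ Icc (-1 : ℝ) 1 → g x = 0) : HasCompactSupport g :=
  HasCompactSupport.intro isCompact_Icc h

lemma C1.cont {f f' : ℝ → ℝ} (h : C1 f f') : Continuous f :=
  continuous_iff_continuousAt.2 fun x => (h.d x).continuousAt

lemma C1.lip {f f' : ℝ → ℝ} (h : C1 f f') : IsLip f := by
  obtain ⟨C, hC⟩ := (hcs h.s1).exists_bound_of_continuous h.c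
  have hC0 : 0 ≤ C := (norm_nonneg _).trans (hC 0)
  refine ⟨⟨C, hC0⟩, lipschitzWith_of_nnnorm_deriv_le (fun x => (h.d x).differentiableAt)
    fun x => ?_⟩
  rw [(h.d x).deriv]
  exact_mod_cast hC x

lemma memLp_cc {g : ℝ → ℝ} (hc : Continuous g) (h : ∀ x, x ∉ Icc (-1 : ℝ) 1 → g x = 0) :
    MemLp g 2 volume := hc.memLp_of_hasCompactSupport (hcs h)

lemma int_cc {g : ℝ → ℝ} (hc : Continuous g) (h : ∀ x, x ∉ Icc (-1 : ℝ) 1 → g x = 0) :
    Integrable g := hc.integrable_of_hasCompactSupport (hcs h)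

lemma C1.der {f f' : ℝ → ℝ} (h : C1 f f') (hw : Weight w) : Der w f f' := by
  have e : deriv f = f' := funext fun x => (h.d x).deriv
  have := Der.of_lip (w := w) h.lip (memLp_mu hw (memLp_cc h.cont h.s0))
    (by rw [e]; exact memLp_mu hw (memLp_cc h.c h.s1))
  rwa [e] at this

lemma int_eq2 {g : ℝ → ℝ} (h : ∀ x, x ∉ Icc (-1 : ℝ) 1 → g x = 0) :
    ∫ x, g x = ∫ x in (-2 : ℝ)..2, g x := by
  rw [intervalIntegral.integral_of_le (by norm_num)]
  symm
  refine setIntegral_eq_integral_of_forall_compl_eq_zero fun x hx => h x fun hx2 => hx ?_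
  exact ⟨by linarith [hx2.1], by linarith [hx2.2]⟩

/-- integration by parts for Lipschitz functions -/
lemma ibp_lip {F : ℝ → ℝ} (hF : IsLip F) {ψ ψ' : ℝ → ℝ} (h : C1 ψ ψ') :
    ∫ x, deriv F x * ψ x = -∫ x, F x * ψ' x := by
  obtain ⟨K, hK⟩ := hF
  obtain ⟨L, hL⟩ := h.lip
  have h1 := AbsolutelyContinuousOnInterval.integral_mul_deriv_eq_deriv_mul
    (hK.lipschitzOnWith.absolutelyContinuousOnInterval (a := -2) (b := 2))
    (hL.lipschitzOnWith.absolutelyContinuousOnInterval (a := -2) (b := 2))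
  have e : deriv ψ = ψ' := funext fun x => (h.d x).deriv
  rw [e, h.s0 2 (by simp), h.s0 (-2) (by simp), mul_zero, mul_zero, sub_zero, zero_sub] at h1
  rw [int_eq2 (g := fun x => deriv F x * ψ x) (fun x hx => by simp [h.s0 x hx]),
    int_eq2 (g := fun x => F x * ψ' x) (fun x hx => by simp [h.s1 x hx]), h1, neg_neg]

lemma tendsto_mul {F : ℕ → ℝ → ℝ} {v ψ : ℝ → ℝ} (hF : ∀ n, AEStronglyMeasurable (F n) volume)
    (h : Tendsto (fun n => eLpNorm (fun x => F n x - v x) 2 volume) atTop (𝓝 0))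
    (hv : MemLp v 2 volume) (hψ : MemLp ψ 2 volume) :
    Tendsto (fun n => ∫ x, F n x * ψ x) atTop (𝓝 (∫ x, v x * ψ x)) := by
  have h1 := (ENNReal.tendsto_toReal ENNReal.zero_ne_top).comp h
  have h2 := h1.mul_const (eLpNorm ψ 2 volume).toReal
  rw [ENNReal.toReal_zero, zero_mul] at h2
  rw [tendsto_iff_norm_sub_tendsto_zero]
  refine squeeze_zero' (Eventually.of_forall fun _ => norm_nonneg _) ?_ h2
  filter_upwards [h.eventually_lt_const (by simp : (0 : ℝ≥0∞) < 1)] with n hn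
  have hm : MemLp (fun x => F n x - v x) 2 volume := ⟨(hF n).sub hv.1, hn.trans (by simp)⟩
  have hFm : MemLp (F n) 2 volume := by
    have := hm.add hv
    refine this.ae_eq (Eventually.of_forall fun x => ?_)
    show F n x - v x + v x = F n x
    ring
  rw [← integral_sub (imul hFm hψ) (imul hv hψ), Real.norm_eq_abs]
  refine le_trans (le_of_eq ?_) (cs' hm hψ)
  congr 2
  funext x
  ring

/-- integration by parts -/
lemma ibp (hw : Weight w) {f v : ℝ → ℝ} (h : Der w f v) {ψ ψ' : ℝ → ℝ} (hψ : C1 ψ ψ') :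
    ∫ x, v x * ψ x = -∫ x, f x * ψ' x := by
  obtain ⟨hf, hv, F, hF, hF'⟩ := h
  have m1 := memLp_vol hw hf
  have m2 := memLp_vol hw hv
  have t1 := tendsto_mul (F := F) (v := f) (fun n => (memLp_vol hw (hF.1 n).2).1)
    (vol_of_mu hw hF.2) m1 (memLp_cc hψ.c hψ.s1)
  have t2 := tendsto_mul (F := fun n => deriv (F n)) (v := v)
    (fun n => (measurable_deriv (F n)).aestronglyMeasurable)
    (vol_of_mu hw hF') m2 (memLp_cc hψ.cont hψ.s0)
  have e : (fun n => ∫ x, deriv (F n) x * ψ x) = fun n => -∫ x, F n x * ψ' x :=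
    funext fun n => ibp_lip (hF.1 n).1 hψ
  rw [e] at t2
  exact tendsto_nhds_unique t2 t1.neg

/-- existence of test functions -/
lemma exists_tst : ∃ φ φ1 φ2 : ℝ → ℝ, C1 φ φ1 ∧ C1 φ1 φ2 ∧ 0 < ∫ x, φ1 x ^ 2 := by
  let b : ContDiffBump (0 : ℝ) := ⟨1 / 2, 1, by norm_num, by norm_num⟩
  have hb : ContDiff ℝ 3 (b : ℝ → ℝ) := b.contDiff
  have hb1 : ContDiff ℝ 2 (deriv b) := hb.deriv'
  have hb2 : ContDiff ℝ 1 (deriv (deriv b)) := hb1.deriv'
  have hs : tsupport (b : ℝ → ℝ) = Icc (-1) 1 := by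
    rw [b.tsupport_eq, Real.closedBall_eq_Icc]
    simp [b]
  have z0 : ∀ x, x ∉ Icc (-1 : ℝ) 1 → b x = 0 := fun x hx =>
    image_eq_zero_of_notMem_tsupport (by rwa [hs])
  have z1 : ∀ x, x ∉ Icc (-1 : ℝ) 1 → deriv b x = 0 := fun x hx =>
    image_eq_zero_of_notMem_tsupport fun h => hx (hs ▸ tsupport_deriv_subset h)
  have z2 : ∀ x, x ∉ Icc (-1 : ℝ) 1 → deriv (deriv b) x = 0 := fun x hx =>
    image_eq_zero_of_notMem_tsupport fun h =>
      hx (hs ▸ tsupport_deriv_subset (tsupport_deriv_subset h))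
  have d0 : ∀ x, HasDerivAt b (deriv b x) x := fun x =>
    (hb.differentiable (by norm_num) x).hasDerivAt
  have d1 : ∀ x, HasDerivAt (deriv b) (deriv (deriv b) x) x := fun x =>
    (hb1.differentiable (by norm_num) x).hasDerivAt
  refine ⟨b, deriv b, deriv (deriv b), ⟨d0, hb1.continuous, z0, z1⟩, ⟨d1, hb2.continuous, z1, z2⟩,
    ?_⟩
  obtain ⟨c, hc, hc2⟩ := exists_deriv_eq_slope (b : ℝ → ℝ) (by norm_num : (0 : ℝ) < 2)
    hb.continuous.continuousOn (fun x _ => (d0 x).differentiableAt.differentiableWithinAt)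
  have hcne : deriv b c ≠ 0 := by
    rw [hc2, z0 2 (by simp)]
    have : b 0 = 1 := b.one_of_mem_closedBall (by simp [b])
    rw [this]
    norm_num
  refine Continuous.integral_pos_of_hasCompactSupport_nonneg_nonzero (x := c)
    (hb1.continuous.pow 2) ?_ (fun x => sq_nonneg _) (pow_ne_zero 2 hcne)
  exact hcs fun x hx => by simp [z1 x hx]

/-- upper bound for the limit line -/
theorem upperT (H : HKW wI p u) {φ φ1 φ2 : ℝ → ℝ} (h : C1 φ φ1) (h' : C1 φ1 φ2) {ε : ℝ}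
    (hε : 0 < ε) :
    ∃ s, 0 < s ∧ ∫ x, u s φ x * φ x ∂(mu wI) ≤
      (∫ x, φ x ^ 2 ∂(mu wI)) + s * (-(∫ x, φ1 x ^ 2 ∂(mu wI)) + ε) := by
  have hw := wI_weight
  have hD := h.der hw
  have hfin := Der_fin hw hD
  have hm := hD.1
  have hip : ∀ {f v : ℝ → ℝ}, Der wI f v →
      -(∫ x, v x * φ1 x ∂(mu wI)) = ∫ x, f x * φ2 x ∂(mu wI) := by
    intro f v hv
    have := ibp hw hv h'
    rw [int_mu hw, int_mu hw]
    simp only [wI]
    rw [integral_const_mul, integral_const_mul, this]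
    ring
  have e0 : -(∫ x, φ1 x ^ 2 ∂(mu wI)) = ∫ x, φ x * φ2 x ∂(mu wI) := by
    rw [← hip hD]
    congr 2
    funext x
    ring
  rw [e0]
  refine upper (a := fun t => ∫ x, u t φ x * φ x ∂(mu wI))
    (c := fun t => -(pairW wI (u t φ) φ)) hε (fun t ht => H.flow φ φ hm hm hfin t ht) ?_ ?_
  · have := tendsto_pair H hm hm
    refine this.trans (le_of_eq ?_)
    congr 2
    funext x
    ring
  · have := tendsto_pair H hm (memLp_mu hw (memLp_cc h'.c h'.s1))
    refine this.congr' ?_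
    filter_upwards [self_mem_nhdsWithin] with t ht
    have mt := H.memLp t ht φ hm
    obtain ⟨v, hv, -⟩ := der_of_fin hw mt (H.fin t ht φ hm)
    rw [pair_eq hw hv hD, hip hv]

end Pool.Agent.U145.HK
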